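import Pool.Agent.Q4.SR.Stm

/-!
# Project SR of helper4, job CMB (combinatorics), by helper275
-/

set_option autoImplicit false

open Set

namespace Pool.Agent.Q275.SR

open Q4.SR

universe u

/-- the retraction of a finite chain on a subset containing the least element -/
theorem exists_adj {C : Type u} [LinearOrder C] [Fintype C] (D : Finset C) (bot : C)
    (hb : ∀ c, bot ≤ c) (hbD : bot ∈ D) :
    ∃ (pi : C → {c // c ∈ D}) (lam : {c // c ∈ D} → C), Monotone pi ∧ Monotone lam ∧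
      (∀ x y, pi x ≤ y ↔ x ≤ lam y) ∧ (∀ y, pi (lam y) = y) ∧ (∀ c ∈ D, (pi c : C) = c) ∧
      (∀ c, (pi c : C) ≤ c) ∧
      ∀ c, (∀ c', c < c' → ∃ d ∈ D, c < d ∧ d ≤ c') → lam (pi c) = c := by
  classical
  have hne : ∀ c : C, (D.filter (fun d => d ≤ c)).Nonempty := fun c =>
    ⟨bot, Finset.mem_filter.mpr ⟨hbD, hb c⟩⟩
  have hmem : ∀ c : C, (D.filter (fun d => d ≤ c)).max' (hne c) ∈ D.filter (fun d => d ≤ c) :=
    fun c => Finset.max'_mem _ _
  set pi : C → {c // c ∈ D} := fun c =>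
    ⟨(D.filter (fun d => d ≤ c)).max' (hne c), (Finset.mem_filter.mp (hmem c)).1⟩ with hpi
  have hple : ∀ c, (pi c : C) ≤ c := fun c => (Finset.mem_filter.mp (hmem c)).2
  have hpge : ∀ c, ∀ d ∈ D, d ≤ c → d ≤ (pi c : C) := fun c d hd hdc =>
    Finset.le_max' _ _ (Finset.mem_filter.mpr ⟨hd, hdc⟩)
  have hpD : ∀ c ∈ D, (pi c : C) = c := fun c hc => le_antisymm (hple c) (hpge c c hc le_rfl)
  have hpm : Monotone pi := fun c c' h => hpge c' (pi c) (pi c).2 ((hple c).trans h)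
  have hne2 : ∀ y : {c // c ∈ D}, (Finset.univ.filter (fun c => (pi c : C) ≤ y)).Nonempty :=
    fun y => ⟨y, Finset.mem_filter.mpr ⟨Finset.mem_univ _, (hpD y y.2).le⟩⟩
  set lam : {c // c ∈ D} → C := fun y =>
    (Finset.univ.filter (fun c => (pi c : C) ≤ y)).max' (hne2 y) with hlam
  have hl1 : ∀ y, (pi (lam y) : C) ≤ y := fun y =>
    (Finset.mem_filter.mp (Finset.max'_mem _ (hne2 y))).2
  have hl2 : ∀ x y, pi x ≤ y → x ≤ lam y := fun x y h =>
    Finset.le_max' (Finset.univ.filter (fun c => (pi c : C) ≤ y)) x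
      (Finset.mem_filter.mpr ⟨Finset.mem_univ _, h⟩)
  have hgal : ∀ x y, pi x ≤ y ↔ x ≤ lam y := fun x y =>
    ⟨hl2 x y, fun h => (hpm h).trans (hl1 y)⟩
  have hlm : Monotone lam := fun y y' h => hl2 _ _ ((show pi (lam y) ≤ y from hl1 y).trans h)
  have hpl : ∀ y, pi (lam y) = y := by
    intro y
    refine le_antisymm (hl1 y) ?_
    have h1 : (y : C) ≤ lam y := hl2 y y (hpD y y.2).le
    have h2 : (y : C) ≤ pi (lam y) := hpge _ _ y.2 h1
    exact h2
  refine ⟨pi, lam, hpm, hlm, hgal, hpl, hpD, hple, ?_⟩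
  intro c hc
  have h1 : c ≤ lam (pi c) := (hgal c (pi c)).mp le_rfl
  rcases h1.lt_or_eq with h2 | h2
  · obtain ⟨d, hd, hcd, hdl⟩ := hc _ h2
    have h3 : d ≤ (pi (lam (pi c)) : C) := hpge _ d hd hdl
    rw [hpl] at h3
    exact absurd (h3.trans (hple c)) (not_le.mpr hcd)
  · exact h2.symm

theorem tCMB : SCMB.{u} := by
  intro C Q _ _ _ _ I hI
  classical
  have : Fintype C := Fintype.ofFinite C
  have : Fintype Q := Fintype.ofFinite Q
  obtain ⟨hconv, hIne, hIc⟩ := hI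
  obtain ⟨⟨c0, q00⟩, hi0⟩ := hIne
  have huC : (Finset.univ : Finset C).Nonempty := ⟨c0, Finset.mem_univ _⟩
  set bot : C := (Finset.univ : Finset C).min' huC with hbot
  have hb : ∀ c, bot ≤ c := fun c => Finset.min'_le _ _ (Finset.mem_univ c)
  -- successor
  have hsc : ∀ c : C, ∃ s : C, ∀ c', c < c' → c < s ∧ s ≤ c' := by
    intro c
    by_cases h : (Finset.univ.filter (fun x => c < x)).Nonempty
    · refine ⟨(Finset.univ.filter (fun x => c < x)).min' h, fun c' hc' => ⟨?_, ?_⟩⟩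
      · exact (Finset.mem_filter.mp (Finset.min'_mem _ h)).2
      · exact Finset.min'_le _ _ (Finset.mem_filter.mpr ⟨Finset.mem_univ _, hc'⟩)
    · exact ⟨c, fun c' hc' => absurd ⟨c', Finset.mem_filter.mpr ⟨Finset.mem_univ _, hc'⟩⟩ h⟩
  choose sc hsc using hsc
  -- predecessor
  have hpr : ∀ c : C, ∃ s : C, ∀ c', c' < c → c' ≤ s ∧ s < c := by
    intro c
    by_cases h : (Finset.univ.filter (fun x => x < c)).Nonempty
    · refine ⟨(Finset.univ.filter (fun x => x < c)).max' h, fun c' hc' => ⟨?_, ?_⟩⟩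
      · exact Finset.le_max' (Finset.univ.filter (fun x => x < c)) c'
          (Finset.mem_filter.mpr ⟨Finset.mem_univ _, hc'⟩)
      · exact (Finset.mem_filter.mp (Finset.max'_mem _ h)).2
    · exact ⟨c, fun c' hc' => absurd ⟨c', Finset.mem_filter.mpr ⟨Finset.mem_univ _, hc'⟩⟩ h⟩
  choose pr hpr using hpr
  -- ends of the rows
  have hab : ∀ q : Q, ∃ a b : C, ∀ c, (c, q) ∈ I → (a, q) ∈ I ∧ (b, q) ∈ I ∧ a ≤ c ∧ c ≤ b := by
    intro q
    by_cases h : (Finset.univ.filter (fun x => (x, q) ∈ I)).Nonempty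
    · refine ⟨(Finset.univ.filter (fun x => (x, q) ∈ I)).min' h,
        (Finset.univ.filter (fun x => (x, q) ∈ I)).max' h, fun c hc => ⟨?_, ?_, ?_, ?_⟩⟩
      · exact (Finset.mem_filter.mp (Finset.min'_mem _ h)).2
      · exact (Finset.mem_filter.mp (Finset.max'_mem _ h)).2
      · exact Finset.min'_le (Finset.univ.filter (fun x => (x, q) ∈ I)) c
          (Finset.mem_filter.mpr ⟨Finset.mem_univ _, hc⟩)
      · exact Finset.le_max' (Finset.univ.filter (fun x => (x, q) ∈ I)) c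
          (Finset.mem_filter.mpr ⟨Finset.mem_univ _, hc⟩)
    · exact ⟨bot, bot, fun c hc => absurd ⟨c, Finset.mem_filter.mpr ⟨Finset.mem_univ _, hc⟩⟩ h⟩
  choose a b hab using hab
  set D : Finset C := insert bot (Finset.univ.image a ∪ Finset.univ.image (fun q => sc (a q)) ∪
    Finset.univ.image (fun q => sc (b q)) ∪ Finset.univ.image (fun q => sc (sc (b q)))) with hD
  have hDa : ∀ q, a q ∈ D := fun q => by
    rw [hD]
    simp only [Finset.mem_insert, Finset.mem_union, Finset.mem_image, Finset.mem_univ, true_and]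
    exact Or.inr (Or.inl (Or.inl (Or.inl ⟨q, rfl⟩)))
  have hDsa : ∀ q, sc (a q) ∈ D := fun q => by
    rw [hD]
    simp only [Finset.mem_insert, Finset.mem_union, Finset.mem_image, Finset.mem_univ, true_and]
    exact Or.inr (Or.inl (Or.inl (Or.inr ⟨q, rfl⟩)))
  have hDsb : ∀ q, sc (b q) ∈ D := fun q => by
    rw [hD]
    simp only [Finset.mem_insert, Finset.mem_union, Finset.mem_image, Finset.mem_univ, true_and]
    exact Or.inr (Or.inl (Or.inr ⟨q, rfl⟩))
  have hDssb : ∀ q, sc (sc (b q)) ∈ D := fun q => by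
    rw [hD]
    simp only [Finset.mem_insert, Finset.mem_union, Finset.mem_image, Finset.mem_univ, true_and]
    exact Or.inr (Or.inr ⟨q, rfl⟩)
  obtain ⟨pi, lam, hpm, hlm, hgal, hpl, hpD, hple, hlast⟩ :=
    exists_adj D bot hb (Finset.mem_insert_self _ _)
  have hu : ∀ c, c ≤ lam (pi c) := fun c => (hgal c (pi c)).mp le_rfl
  have hsl : ∀ c, sc c ∈ D → lam (pi c) = c := fun c hc =>
    hlast c fun c' hc' => ⟨sc c, hc, (hsc c c' hc').1, (hsc c c' hc').2⟩
  have hla : ∀ q, lam (pi (a q)) = a q := fun q => hsl _ (hDsa q)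
  have hlb : ∀ q, lam (pi (b q)) = b q := fun q => hsl _ (hDsb q)
  have hlsb : ∀ q, lam (pi (sc (b q))) = sc (b q) := fun q => hsl _ (hDssb q)
  have hlpa : ∀ q, ∀ t, t < a q → lam (pi (pr (a q))) = pr (a q) := by
    intro q t ht
    refine hlast _ fun c' hc' => ⟨a q, hDa q, (hpr (a q) t ht).2, ?_⟩
    by_contra hcon
    push Not at hcon
    exact absurd (hpr (a q) c' hcon).1 (not_le.mpr hc')
  -- the intervals are unions of blocks
  have hblk : ∀ c q, (lam (pi c), q) ∈ I ↔ (c, q) ∈ I := by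
    intro c q
    constructor
    · intro h
      obtain ⟨h1, h2, h3, h4⟩ := hab q _ h
      have h5 : a q ≤ c := by
        have h6 : pi (a q) ≤ pi c := (hgal _ _).mpr h3
        have h7 : (pi (a q) : C) ≤ pi c := h6
        rw [hpD _ (hDa q)] at h7
        exact h7.trans (hple c)
      exact hconv.out h1 h2 ⟨⟨h5, le_rfl⟩, ⟨(hu c).trans h4, le_rfl⟩⟩
    · intro h
      obtain ⟨h1, h2, h3, h4⟩ := hab q _ h
      have h5 : lam (pi c) ≤ b q := by
        rw [← hlb q]
        exact hlm (hpm h4)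
      exact hconv.out h1 h2 ⟨⟨h3.trans (hu c), le_rfl⟩, ⟨h5, le_rfl⟩⟩
  have hlid : Monotone (Prod.map lam (id : Q → Q)) := hlm.prodMap monotone_id
  refine ⟨{c // c ∈ D}, inferInstance, inferInstance, pi, lam, (Prod.map lam id) ⁻¹' I, ?_, hpm,
    hlm, hgal, hpl, ⟨⟨?_⟩, ⟨(pi c0, q00), (hblk c0 q00).mpr hi0⟩, ?_⟩, ?_, ?_⟩
  · rw [Nat.card_eq_fintype_card, Fintype.card_coe, Nat.card_eq_fintype_card]
    have h1 : (Finset.univ.image a ∪ Finset.univ.image (fun q => sc (a q)) ∪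
        Finset.univ.image (fun q => sc (b q)) ∪ Finset.univ.image (fun q => sc (sc (b q)))).card ≤
        4 * Fintype.card Q := by
      have e1 := Finset.card_union_le (Finset.univ.image a ∪ Finset.univ.image (fun q => sc (a q)) ∪
        Finset.univ.image (fun q => sc (b q))) (Finset.univ.image (fun q => sc (sc (b q))))
      have e2 := Finset.card_union_le (Finset.univ.image a ∪ Finset.univ.image (fun q => sc (a q)))
        (Finset.univ.image (fun q => sc (b q)))
      have e3 := Finset.card_union_le (Finset.univ.image a)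
        (Finset.univ.image (fun q => sc (a q)))
      have f1 : (Finset.univ.image a).card ≤ Fintype.card Q := Finset.card_image_le
      have f2 : (Finset.univ.image (fun q => sc (a q))).card ≤ Fintype.card Q :=
        Finset.card_image_le
      have f3 : (Finset.univ.image (fun q => sc (b q))).card ≤ Fintype.card Q :=
        Finset.card_image_le
      have f4 : (Finset.univ.image (fun q => sc (sc (b q)))).card ≤ Fintype.card Q :=
        Finset.card_image_le
      omega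
    have h2 := Finset.card_insert_le bot (Finset.univ.image a ∪
      Finset.univ.image (fun q => sc (a q)) ∪ Finset.univ.image (fun q => sc (b q)) ∪
        Finset.univ.image (fun q => sc (sc (b q))))
    rw [hD]
    omega
  · intro x hx y hy z hz
    exact hconv.out hx hy ⟨hlid hz.1, hlid hz.2⟩
  · intro x hx y hy
    have h1 := hIc _ hx _ hy
    have h2 : Relation.ReflTransGen (fun x y => x ∈ (Prod.map lam id) ⁻¹' I ∧
        y ∈ (Prod.map lam id) ⁻¹' I ∧ (x ≤ y ∨ y ≤ x))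
        (Prod.map pi id (Prod.map lam id x)) (Prod.map pi id (Prod.map lam id y)) := by
      refine Relation.ReflTransGen.lift (Prod.map pi (id : Q → Q)) ?_ _ _ h1
      rintro ⟨c, q⟩ ⟨c', q'⟩ ⟨h3, h4, h5⟩
      refine ⟨(hblk c q).mpr h3, (hblk c' q').mpr h4, ?_⟩
      rcases h5 with h5 | h5
      · exact Or.inl ⟨hpm h5.1, h5.2⟩
      · exact Or.inr ⟨hpm h5.1, h5.2⟩
    have h3 : ∀ x : {c // c ∈ D} × Q, Prod.map pi id (Prod.map lam id x) = x := by
      rintro ⟨c, q⟩
      exact Prod.ext (hpl c) rfl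
    rwa [h3, h3] at h2
  · ext ⟨c, q⟩
    exact (hblk c q).symm
  · intro W hW
    constructor
    · rintro ⟨⟨hsub, hlow⟩, -, hup⟩
      have hmem : ∀ c q, (c, q) ∈ I → (pi c, q) ∈ (Prod.map lam (id : Q → Q)) ⁻¹' I :=
        fun c q h => (hblk c q).mpr h
      have hWa : ∀ c q, (c, q) ∈ I → (a q, q) ∈ W := by
        intro c q h
        have h1 : (lam (pi (a q)), q) ∈ W := hsub (hmem _ _ (hab q c h).1)
        rwa [hla] at h1
      have hWb : ∀ c q, (c, q) ∈ I → (b q, q) ∈ W := by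
        intro c q h
        have h1 : (lam (pi (b q)), q) ∈ W := hsub (hmem _ _ (hab q c h).2.1)
        rwa [hlb] at h1
      have hIW : I ⊆ W := by
        rintro ⟨c, q⟩ h
        obtain ⟨-, -, h3, h4⟩ := hab q c h
        exact hW.out (hWa c q h) (hWb c q h) ⟨⟨h3, le_rfl⟩, ⟨h4, le_rfl⟩⟩
      -- rows
      have hrow : ∀ c t q, (c, q) ∈ I → (t, q) ∈ W → (t, q) ∈ I := by
        intro c t q hc ht
        obtain ⟨h1, h2, h3, h4⟩ := hab q c hc
        by_cases h5 : b q < t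
        · obtain ⟨h6, h7⟩ := hsc _ _ h5
          have h8 : (sc (b q), q) ∈ W := hW.out (hWb c q hc) ht ⟨⟨h6.le, le_rfl⟩, ⟨h7, le_rfl⟩⟩
          have h9 : (pi (sc (b q)), q) ∈ (Prod.map lam (id : Q → Q)) ⁻¹' W := by
            change (lam (pi (sc (b q))), q) ∈ W
            rwa [hlsb]
          have h10 := hup _ (hmem _ _ h2) _ h9 ⟨hpm h6.le, le_rfl⟩
          have h11 : (sc (b q), q) ∈ I := (hblk _ _).mp h10
          exact absurd (hab q _ h11).2.2.2 (not_le.mpr h6)
        · by_cases h6 : t < a q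
          · obtain ⟨h7, h8⟩ := hpr _ _ h6
            have h9 : (pr (a q), q) ∈ W :=
              hW.out ht (hWa c q hc) ⟨⟨h7, le_rfl⟩, ⟨h8.le, le_rfl⟩⟩
            have h10 : (pi (pr (a q)), q) ∈ (Prod.map lam (id : Q → Q)) ⁻¹' W := by
              change (lam (pi (pr (a q))), q) ∈ W
              rwa [hlpa q t h6]
            have h11 := hlow _ (hmem _ _ h1) _ h10 ⟨hpm h8.le, le_rfl⟩
            have h12 : (pr (a q), q) ∈ I := (hblk _ _).mp h11
            exact absurd (hab q _ h12).2.2.1 (not_le.mpr h8)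
          · exact hconv.out h1 h2 ⟨⟨not_lt.mp h6, le_rfl⟩, ⟨not_lt.mp h5, le_rfl⟩⟩
      refine ⟨⟨hIW, ?_⟩, hIW, ?_⟩
      · rintro ⟨t0, q0⟩ h0 ⟨t, q⟩ hw hle
        obtain ⟨h1, h2, h3, h4⟩ := hab q0 t0 h0
        have h5 : (b q0, q) ∈ W := hW.out hw (hWb t0 q0 h0)
          ⟨⟨(show t ≤ t0 from hle.1).trans h4, le_rfl⟩, ⟨le_rfl, hle.2⟩⟩
        have h6 : (pi (b q0), q) ∈ (Prod.map lam (id : Q → Q)) ⁻¹' W := by
          change (lam (pi (b q0)), q) ∈ W
          rwa [hlb]
        have h7 := hlow _ (hmem _ _ h2) _ h6 ⟨le_rfl, hle.2⟩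
        exact hrow _ _ _ ((hblk _ _).mp h7) hw
      · rintro ⟨t0, q0⟩ h0 ⟨t, q⟩ hw hle
        obtain ⟨h1, h2, h3, h4⟩ := hab q0 t0 h0
        have h5 : (a q0, q) ∈ W := hW.out (hWa t0 q0 h0) hw
          ⟨⟨le_rfl, hle.2⟩, ⟨h3.trans (show t0 ≤ t from hle.1), le_rfl⟩⟩
        have h6 : (pi (a q0), q) ∈ (Prod.map lam (id : Q → Q)) ⁻¹' W := by
          change (lam (pi (a q0)), q) ∈ W
          rwa [hla]
        have h7 := hup _ (hmem _ _ h1) _ h6 ⟨le_rfl, hle.2⟩
        exact hrow _ _ _ ((hblk _ _).mp h7) hw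
    · rintro ⟨⟨hsub, hlow⟩, -, hup⟩
      refine ⟨⟨fun x hx => hsub hx, fun x hx y hy hyx => ?_⟩, fun x hx => hsub hx,
        fun x hx y hy hxy => ?_⟩
      · exact hlow _ hx _ hy (hlid hyx)
      · exact hup _ hx _ hy (hlid hxy)

end Pool.Agent.Q275.SR
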