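import Pool.Agent.Q4.SR.Stm

/-!
# Project SR of helper4, job PUL (pull-back along an adjoint pair), by helper275
-/

set_option autoImplicit false

open Set

namespace Pool.Agent.Q275.SR

open Q4.SR

universe u

variable {k : Type u} [Field k] {P P' : Type u} [PartialOrder P] [PartialOrder P']

/-- the inverse of a pointwise bijective morphism -/
noncomputable def invHom {A B : PM k P} (f : PMHom A B) (hf : ∀ W, Function.Bijective (f.app W)) :
    PMHom B A where
  app W := (LinearEquiv.ofBijective (f.app W) (hf W)).symm.toLinearMap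
  comm := by
    intro W W' η x
    apply (hf W).1
    have h1 : ∀ (W : Cvx P) (y : B.obj W),
        f.app W ((LinearEquiv.ofBijective (f.app W) (hf W)).symm y) = y := fun W y =>
      (LinearEquiv.ofBijective (f.app W) (hf W)).apply_symm_apply y
    change f.app W ((LinearEquiv.ofBijective (f.app W) (hf W)).symm (B.act η x)) =
      f.app W (A.act η ((LinearEquiv.ofBijective (f.app W') (hf W')).symm x))
    rw [h1, f.comm, h1]

theorem invHom_right {A B : PM k P} (f : PMHom A B) (hf : ∀ W, Function.Bijective (f.app W))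
    (W : Cvx P) (y : B.obj W) : f.app W ((invHom f hf).app W y) = y :=
  (LinearEquiv.ofBijective (f.app W) (hf W)).apply_symm_apply y

theorem invHom_left {A B : PM k P} (f : PMHom A B) (hf : ∀ W, Function.Bijective (f.app W))
    (W : Cvx P) (x : A.obj W) : (invHom f hf).app W (f.app W x) = x :=
  (LinearEquiv.ofBijective (f.app W) (hf W)).symm_apply_apply x

theorem invHom_bij {A B : PM k P} (f : PMHom A B) (hf : ∀ W, Function.Bijective (f.app W))
    (W : Cvx P) : Function.Bijective ((invHom f hf).app W) :=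
  (LinearEquiv.ofBijective (f.app W) (hf W)).symm.bijective

/-- composition -/
def cHom {A B C : PM k P} (f : PMHom A B) (g : PMHom B C) : PMHom A C where
  app W := (g.app W).comp (f.app W)
  comm := by
    intro W W' η x
    change g.app W (f.app W (A.act η x)) = C.act η (g.app W' (f.app W' x))
    rw [f.comm, g.comm]

/-- the pull-back of a morphism -/
def pullHom (lam : P' → P) (hlam : Monotone lam) {F G : PM k P'} (f : PMHom F G) :
    PMHom (pull lam hlam F) (pull lam hlam G) where
  app W := f.app (Cpull lam hlam W)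
  comm := by
    intro W W' η x
    exact f.comm _ x

/-- the comparison of the free functors -/
def freHom (pi : P → P') (lam : P' → P) (hpi : Monotone pi) (hlam : Monotone lam)
    (hpl : ∀ y, pi (lam y) = y) {n : ℕ} (T : Fin n → Cvx P') :
    PMHom (fre k fun i => Cpull pi hpi (T i)) (pull lam hlam (fre k T)) where
  app W :=
    { toFun := fun η i => ⟨fun y => (η i).1 (lam y), by
        refine ⟨fun y hy => ⟨(Hsupp (η i) hy).1, ?_⟩, fun y y' h hy hy' => ?_⟩
        · have h1 : pi (lam y) ∈ (T i).1 := (Hsupp (η i) hy).2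
          rwa [hpl] at h1
        · refine Heq (η i) (hlam h) hy ?_
          change pi (lam y') ∈ (T i).1
          rwa [hpl]⟩
      map_add' := fun _ _ => rfl
      map_smul' := fun _ _ => rfl }
  comm := by
    intro W W' η x
    rfl

theorem freHom_bij (pi : P → P') (lam : P' → P) (hpi : Monotone pi) (hlam : Monotone lam)
    (hgal : ∀ x y, pi x ≤ y ↔ x ≤ lam y)
    (hpl : ∀ y, pi (lam y) = y) {n : ℕ} (T : Fin n → Cvx P') (W : Cvx P) :
    Function.Bijective ((freHom (k := k) pi lam hpi hlam hpl T).app W) := by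
  have hu : ∀ x, x ≤ lam (pi x) := fun x => (hgal x (pi x)).mp le_rfl
  constructor
  · intro η θ h
    funext i
    apply Subtype.ext
    funext x
    have h1 : ∀ y, (η i).1 (lam y) = (θ i).1 (lam y) := fun y =>
      congrFun (congrArg Subtype.val (congrFun h i)) y
    by_cases hxW : x ∈ W.1
    · by_cases hxT : pi x ∈ (T i).1
      · have h2 : lam (pi x) ∈ pi ⁻¹' (T i).1 := by
          change pi (lam (pi x)) ∈ (T i).1
          rwa [hpl]
        rw [Heq (η i) (hu x) hxW h2, Heq (θ i) (hu x) hxW h2]
        exact h1 _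
      · rw [Hright (η i) hxT, Hright (θ i) hxT]
    · rw [Hleft (η i) hxW, Hleft (θ i) hxW]
  · intro θ
    classical
    have hθ : ∀ i : Fin n, ∃ η : H k W.1 (pi ⁻¹' (T i).1), ∀ y, η.1 (lam y) = (θ i).1 y := by
      intro i
      have hsup : ∀ y, (θ i).1 y ≠ 0 → lam y ∈ W.1 ∧ y ∈ (T i).1 := fun y hy =>
        Hsupp (θ i) hy
      refine ⟨⟨fun x => if x ∈ W.1 then (θ i).1 (pi x) else 0, ?_, ?_⟩, ?_⟩
      · intro x hx
        by_cases h : x ∈ W.1
        · refine ⟨h, ?_⟩
          simp only [if_pos h] at hx
          exact (hsup _ hx).2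
        · simp only [if_neg h] at hx
          exact absurd rfl hx
      · intro x y hxy hx hy
        have hpxy : pi x ≤ pi y := hpi hxy
        have hy' : pi y ∈ (T i).1 := hy
        simp only [if_pos hx]
        by_cases h1 : y ∈ W.1
        · rw [if_pos h1]
          by_cases h2 : lam (pi x) ∈ W.1
          · exact Heq (θ i) hpxy h2 hy'
          · have h3 : (θ i).1 (pi x) = 0 := by
              by_contra hne
              exact h2 (hsup _ hne).1
            have h4 : (θ i).1 (pi y) = 0 := by
              by_contra hne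
              exact h2 (W.2.out hx (hsup _ hne).1 ⟨hu x, hlam hpxy⟩)
            rw [h3, h4]
        · rw [if_neg h1]
          by_contra hne
          have h2 := (hsup _ hne).1
          have h3 : (θ i).1 (pi x) = (θ i).1 (pi y) := Heq (θ i) hpxy h2 hy'
          have h4 : (θ i).1 (pi y) ≠ 0 := by
            rw [← h3]
            exact hne
          exact h1 (W.2.out hx (hsup _ h4).1 ⟨hxy, hu y⟩)
      · intro y
        change (if lam y ∈ W.1 then (θ i).1 (pi (lam y)) else 0) = (θ i).1 y
        rw [hpl]
        by_cases h : lam y ∈ W.1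
        · rw [if_pos h]
        · rw [if_neg h]
          by_contra hne
          exact h (hsup _ (Ne.symm hne)).1
    choose η hη using hθ
    refine ⟨fun i => η i, ?_⟩
    funext i
    apply Subtype.ext
    funext y
    exact hη i y

theorem FR_pull (pi : P → P') (lam : P' → P) (hpi : Monotone pi) (hlam : Monotone lam)
    (hgal : ∀ x y, pi x ≤ y ↔ x ≤ lam y)
    (hpl : ∀ y, pi (lam y) = y) (n : ℕ) : ∀ F : PM k P', FR n F → FR n (pull lam hlam F) := by
  induction n with
  | zero =>
    rintro F ⟨m, T, f, hf⟩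
    refine ⟨m, fun i => Cpull pi hpi (T i),
      cHom (freHom pi lam hpi hlam hpl T) (pullHom lam hlam f), fun W => ?_⟩
    exact (hf _).comp (freHom_bij pi lam hpi hlam hgal hpl T W)
  | succ n ih =>
    rintro F ⟨m, T, K, i, p, ⟨h1, h2, h3⟩, hK⟩
    have hb := freHom_bij (k := k) pi lam hpi hlam hgal hpl T
    refine ⟨m, fun i => Cpull pi hpi (T i), pull lam hlam K,
      cHom (pullHom lam hlam i) (invHom (freHom pi lam hpi hlam hpl T) hb),
      cHom (freHom pi lam hpi hlam hpl T) (pullHom lam hlam p), ⟨fun W => ?_, fun W x => ?_,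
        fun W => ?_⟩, ih K hK⟩
    · exact (invHom_bij _ hb W).1.comp (h1 _)
    · refine Iff.trans (h2 (Cpull lam hlam W) ((freHom (k := k) pi lam hpi hlam hpl T).app W x)) ?_
      constructor
      · rintro ⟨y, hy⟩
        refine ⟨y, ?_⟩
        change (invHom (freHom (k := k) pi lam hpi hlam hpl T) hb).app W (i.app _ y) = x
        rw [hy]
        exact invHom_left _ hb W x
      · rintro ⟨y, hy⟩
        refine ⟨y, ?_⟩
        rw [← hy]
        exact (invHom_right _ hb W _).symm
    · exact (h3 _).comp (hb W).2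

theorem tPUL : STK.{u} → SPUL.{u} := by
  intro stk k _ P P' _ _ pi lam hpi hlam hgal hpl
  refine ⟨fun n F => FR_pull pi lam hpi hlam hgal hpl n F, ?_⟩
  intro I' hI'
  have hu : ∀ x, x ≤ lam (pi x) := fun x => (hgal x (pi x)).mp le_rfl
  refine ⟨⟨⟨fun x hx y hy z hz => hI'.1.out hx hy ⟨hpi hz.1, hpi hz.2⟩⟩, ?_, ?_⟩, ?_⟩
  · obtain ⟨y, hy⟩ := hI'.2.1
    refine ⟨lam y, ?_⟩
    change pi (lam y) ∈ I'
    rwa [hpl]
  · intro a ha b hb
    have hl : ∀ y, y ∈ I' → lam y ∈ pi ⁻¹' I' := by
      intro y hy
      change pi (lam y) ∈ I'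
      rwa [hpl]
    have h1 := hI'.2.2 _ ha _ hb
    have h2 : Relation.ReflTransGen (fun x y => x ∈ pi ⁻¹' I' ∧ y ∈ pi ⁻¹' I' ∧
        (x ≤ y ∨ y ≤ x)) (lam (pi a)) (lam (pi b)) := by
      refine Relation.ReflTransGen.lift lam ?_ _ _ h1
      rintro x y ⟨h3, h4, h5⟩
      refine ⟨hl x h3, hl y h4, ?_⟩
      rcases h5 with h5 | h5
      · exact Or.inl (hlam h5)
      · exact Or.inr (hlam h5)
    refine (Relation.ReflTransGen.head ⟨ha, hl _ ha, Or.inl (hu a)⟩ h2).tail
      ⟨hl _ hb, hb, Or.inr (hu b)⟩
  · intro hiff n h1 h2 hF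
    classical
    have hp' : lam h1.1.some ∈ pi ⁻¹' I' := by
      change pi (lam h1.1.some) ∈ I'
      rw [hpl]
      exact h1.1.some_mem
    let f : PMHom (pull lam hlam (Sim k I' h1)) (Sim k (pi ⁻¹' I') h2) :=
      { app := fun W =>
          { toFun := fun c => ⟨c.1, by
              rcases c.2 with h | h
              · exact Or.inl ((hiff W).mp h)
              · exact Or.inr h⟩
            map_add' := fun _ _ => rfl
            map_smul' := fun _ _ => rfl }
        comm := by
          intro W W' η x
          apply Subtype.ext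
          change (if CompIn I' (lam ⁻¹' W.1) then η.1 (lam h1.1.some) * x.1 else 0) =
            (if CompIn (pi ⁻¹' I') W.1 then η.1 h2.1.some * x.1 else 0)
          by_cases hW : CompIn (pi ⁻¹' I') W.1
          · rw [if_pos hW, if_pos ((hiff W).mpr hW)]
            rcases x.2 with h | h
            · have hW' : CompIn (pi ⁻¹' I') W'.1 := (hiff W').mp h
              rw [H_const η h2 hW.1.1 hW'.1.1 hp' h2.1.some_mem]
            · rw [h, mul_zero, mul_zero]
          · rw [if_neg hW, if_neg fun h => hW ((hiff W).mp h)] }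
    refine stk.2.1 n _ _ f (fun W => ⟨?_, ?_⟩)
      (FR_pull pi lam hpi hlam hgal hpl n _ hF)
    · intro x y hxy
      apply Subtype.ext
      exact congrArg (fun z : Kif k (CompIn (pi ⁻¹' I') W.1) => z.1) hxy
    · intro y
      refine ⟨⟨y.1, ?_⟩, rfl⟩
      rcases y.2 with h | h
      · exact Or.inl ((hiff W).mpr h)
      · exact Or.inr h

end Pool.Agent.Q275.SR
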